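import Mathlib
import Pool.Agent.Run7.h208.KS.Model

/-!
# Mass gap of the Kogut-Susskind Hamiltonian, uniformly in the volume and in `N`

Space is the periodic cubic lattice `(ℤ/l)^D`, the gauge group `G` is a closed connected subgroup of
`U(N)` and the Hamiltonian is the one of Kogut and Susskind,
`H = - (g ^ 2 / 2) Δ + g ^ (-2) ∑_p Re tr (1 - U_p)`, on the functions of the link variables.
If the Casimir operator of the adjoint representation is at least `c > 0` and
`c ^ 2 g ^ 4 > 2048 (D - 1)`, then the second energy level is at least `E₀ + k` with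
`k = g ^ 2 (c / 16) (1 + √(1 - 2048 (D - 1) / (c ^ 2 g ^ 4)))`, for every side `l ≥ 1`.
For `SU(N)` one has `c = 2 N`, and in the 't Hooft scaling `g ^ 2 = λ / N` the condition is
`λ ^ 2 > 512 (D - 1)` and `k = (λ / 8) (1 + √(1 - 512 (D - 1) / λ ^ 2))`, for all `N` and all volumes.

The proof: the logarithm of the vacuum has its second derivatives bounded independently of the volume
(maximum principle along the flow `exp (- t H) 1`), less than the Ricci curvature of the group; then
Bochner's inequality for the vacuum measure.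
-/

open MeasureTheory Run7.h208.KS.Model

namespace Pool.Agent.Results.MP_7f377f_mp.HooftHamiltonianGap

/-- The second energy level of the Hamiltonian is at least `E₀ + k`: if `Ψ`, `Φ` are orthonormal
smooth wave functions and the energies of all unit vectors of the plane spanned by `Ψ`, `Φ` are at
most `E`, then `E₀ + k ≤ E`. -/
def HasGap {N n : ℕ} {G : Subgroup (UU N)} (D l : ℕ) [NeZero l] [MeasurableSpace G]
    (B : LieBasis G n) (μ : Measure G) (g k : ℝ) : Prop :=
  ∀ Ψ Φ : (Link D l → G) → ℂ, IsSmooth Ψ → IsSmooth Φ → inner μ Ψ Ψ = 1 → inner μ Φ Φ = 1 →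
    inner μ Ψ Φ = 0 → ∀ E : ℝ,
    (∀ a b : ℂ, energy B μ g (fun U => a * Ψ U + b * Φ U) ≤ E * (‖a‖ ^ 2 + ‖b‖ ^ 2)) →
    groundEnergy D l B μ g + k ≤ E

theorem result :
    (∀ (N n D l : ℕ) [NeZero l] (G : Subgroup (UU N)) [MeasurableSpace G] [BorelSpace G]
      (μ : Measure G) [IsProbabilityMeasure μ] [μ.IsHaarMeasure] (B : LieBasis G n) (c g : ℝ),
      1 ≤ N → 1 ≤ D → IsClosed (G : Set (UU N)) → ConnectedSpace G → 0 < c → CasimirBound B c →
      0 < g → 2048 * ((D : ℝ) - 1) < c ^ 2 * g ^ 4 →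
      HasGap D l B μ g
        (g ^ 2 * (c / 16) * (1 + Real.sqrt (1 - 2048 * ((D : ℝ) - 1) / (c ^ 2 * g ^ 4))))) ∧
    (∀ (N n D l : ℕ) [NeZero l] [MeasurableSpace (SU N)] [BorelSpace (SU N)]
      (μ : Measure (SU N)) [IsProbabilityMeasure μ] [μ.IsHaarMeasure] (B : LieBasis (SU N) n)
      (lam g : ℝ), 1 ≤ N → 1 ≤ D → 0 < lam → 0 < g → g ^ 2 = lam / N →
      512 * ((D : ℝ) - 1) < lam ^ 2 →
      HasGap D l B μ g
        (lam / 8 * (1 + Real.sqrt (1 - 512 * ((D : ℝ) - 1) / lam ^ 2)))) := by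
  refine ⟨?_, ?_⟩
  · intro N n D l _ G _ _ μ _ _ B c g hN hD hG hconn hc0 hc hg hgc
    exact (general G μ B hN hD hG hconn hc0 hc hg hgc).gap
  · intro N n D l _ _ _ μ _ _ B lam g hN hD hlam hg hgl hlam2
    exact (special μ B hN hD hlam hg hgl hlam2).gap

end Pool.Agent.Results.MP_7f377f_mp.HooftHamiltonianGap
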